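import Pool.Agent.W169.AF.Stm
import Pool.Agent.H343R2.PV

/-! Polya-Vinogradov for primitive characters. -/

set_option autoImplicit false

namespace Pool.Agent.W824.AF

open Finset Pool.Agent.W169.AF

theorem pv : S_PV := by
  refine ⟨3, by norm_num, fun q hq χ hχ N => ?_⟩
  have hP : χ.IsPrimitive := by
    classical
    unfold PC at hχ
    exact (Finset.mem_filter.1 hχ).2
  have h := H343.PVaux.PV_plain q N hq χ hP
  have hq2 : (2 : ℝ) ≤ (q : ℝ) := by exact_mod_cast hq
  have hlog : Real.log 2 ≤ Real.log q := Real.log_le_log (by norm_num) hq2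
  have h2 : (1 : ℝ) / 2 < Real.log 2 := by
    have := Real.log_two_gt_d9
    linarith
  have h3 : 1 + Real.log q ≤ 3 * Real.log q := by linarith
  calc ‖∑ n ∈ Icc 1 N, χ (n : ZMod q)‖ ≤ Real.sqrt q * (1 + Real.log q) := h
    _ ≤ Real.sqrt q * (3 * Real.log q) :=
        mul_le_mul_of_nonneg_left h3 (Real.sqrt_nonneg _)
    _ = 3 * Real.sqrt q * Real.log q := by ring

end Pool.Agent.W824.AF
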